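import Pool.Agent.H5.Glue

set_option autoImplicit false

open MvPolynomial Pool.Agent.H5.Split Pool.Agent.H5.Glue

namespace Pool.Agent.Results.MP_afeaf0_al.Solid

/-- Catenary rings: between any two primes `p ≤ q` the chains of primes from `p` to `q` have
bounded length and all saturated chains have the same (maximal) length. -/
def IsCatenary (R : Type) [CommRing R] : Prop :=
  ∀ p q : PrimeSpectrum R, p ≤ q → ∃ n : ℕ,
    ∀ c : LTSeries (PrimeSpectrum R), c.head = p → c.last = q →
      c.length ≤ n ∧ ((∀ i : Fin c.length, c i.castSucc ⋖ c i.succ) → c.length = n)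

/-- The integral closure of `R` in the field `L` is a solid `R`-algebra: it has a nonzero
`R`-linear map to `R`. For `L` an algebraic closure of the fraction field this is `R⁺`. -/
def ClosureSolid (R L : Type) [CommRing R] [Field L] [Algebra R L] : Prop :=
  ∃ φ : integralClosure R L →ₗ[R] R, φ ≠ 0

lemma field (p : ℕ) (hp : p.Prime) : ∃ (K : Type) (_ : Field K) (_ : CharP K p)
    (τ : Polynomial K →+* K), Function.Injective τ ∧ ∀ u, ∃ a b, τ b ≠ 0 ∧ u = τ a / τ b := by
  have : Fact p.Prime := ⟨hp⟩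
  let R := MvPolynomial ℕ (ZMod p)
  let K := FractionRing R
  let ω : Polynomial R ≃ₐ[ZMod p] R :=
    (optionEquivLeft (ZMod p) ℕ).symm.trans (renameEquiv _ (Denumerable.eqv (Option ℕ)))
  let j : Polynomial R →+* K := (algebraMap R K).comp ω.toRingEquiv.toRingHom
  have hj : Function.Injective j := (IsFractionRing.injective R K).comp ω.injective
  let ι : K →+* K := IsFractionRing.lift (g := j.comp Polynomial.C)
    (hj.comp Polynomial.C_injective)
  let τ : Polynomial K →+* K := Polynomial.eval₂RingHom ι (j Polynomial.X)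
  have h1 : τ.comp (Polynomial.mapRingHom (algebraMap R K)) = j :=
    Polynomial.ringHom_ext (fun a => by simp [τ, ι]) (by simp [τ])
  have h2 : ∀ g, τ (g.map (algebraMap R K)) = j g := fun g => RingHom.congr_fun h1 g
  refine ⟨K, inferInstance, charP_of_injective_algebraMap (IsFractionRing.injective R K) p, τ,
    (injective_iff_map_eq_zero τ).2 fun f hf => ?_, fun u => ?_⟩
  · obtain ⟨b, hb, e⟩ := IsLocalization.integerNormalization_spec (nonZeroDivisors R) f
    have h3 := h2 (IsLocalization.integerNormalization (nonZeroDivisors R) f)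
    rw [e, Algebra.smul_def, map_mul, hf, mul_zero, eq_comm, map_eq_zero_iff j hj] at h3
    exact IsFractionRing.integerNormalization_eq_zero_iff.1 h3
  · obtain ⟨a, b, hb, rfl⟩ := IsFractionRing.div_surjective (A := R) u
    have h4 : ∀ a : R, τ ((ω.symm a).map (algebraMap R K)) = algebraMap R K a := fun a => by
      rw [h2]
      simp [j]
    refine ⟨(ω.symm a).map (algebraMap R K), (ω.symm b).map (algebraMap R K), ?_, by rw [h4, h4]⟩
    rw [h4]
    exact IsFractionRing.to_map_ne_zero_of_mem_nonZeroDivisors hb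

abbrev A3 (K : Type) [Field K] : Type := MvPolynomial (Fin 3) K

lemma ring (K : Type) [Field K] (τ : Polynomial K →+* K) (h1 : Function.Injective τ)
    (h2 : ∀ u, ∃ a b, τ b ≠ 0 ∧ u = τ a / τ b) :
    ∃ (U : Submonoid (MvPolynomial (Fin 3) K)) (e1 e2 : Localization U →+* K)
      (P Q1 Q2 : Ideal (Localization U)), U ≤ nonZeroDivisors _ ∧
      (∀ u v, ∃ s, e1 s = u ∧ e2 s = v) ∧ (RingHom.ker e1).height ≤ 2 ∧
      P.IsPrime ∧ Q1.IsPrime ∧ Q2.IsPrime ∧ ⊥ < P ∧ P < RingHom.ker e1 ∧ ¬ P ≤ RingHom.ker e2 ∧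
      ⊥ < Q1 ∧ Q1 < Q2 ∧ Q2 < RingHom.ker e2 := by
  classical
  let r : (A3 K) →ₐ[K] Polynomial K := aeval ![0, 0, Polynomial.X]
  let i : Polynomial K →ₐ[K] (A3 K) := Polynomial.aeval (X 2)
  have hri : ∀ a, r (i a) = a := fun a =>
    AlgHom.congr_fun (show r.comp i = AlgHom.id K _ by ext; simp [r, i]) a
  let f1 : (A3 K) →+* K := τ.comp r.toRingHom
  let f2 : (A3 K) →+* K := eval ![1, 0, 0]
  let U : Submonoid (A3 K) := (nonZeroDivisors K).comap f1 ⊓ (nonZeroDivisors K).comap f2
  have hU : ∀ u, u ∈ U ↔ f1 u ≠ 0 ∧ f2 u ≠ 0 := fun u => by simp [U]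
  let e1 : Localization U →+* K := IsLocalization.lift (M := U) (g := f1)
    fun u => ((hU u).1 u.2).1.isUnit
  let e2 : Localization U →+* K := IsLocalization.lift (M := U) (g := f2)
    fun u => ((hU u).1 u.2).2.isUnit
  have he1 : ∀ a, e1 (algebraMap (A3 K) _ a) = f1 a := fun a => IsLocalization.lift_eq _ a
  have he2 : ∀ a, e2 (algebraMap (A3 K) _ a) = f2 a := fun a => IsLocalization.lift_eq _ a
  have hU0 : U ≤ nonZeroDivisors (A3 K) := fun u hu => mem_nonZeroDivisors_of_ne_zero fun h =>
    ((hU u).1 hu).1 (by rw [h, map_zero])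
  have hinj : Function.Injective (algebraMap (A3 K) (Localization U)) := IsLocalization.injective _ hU0
  have hk : RingHom.ker f1 = Ideal.span ({X 0, X 1} : Finset (A3 K)) := by
    refine le_antisymm (fun a ha => ?_) (by simp [Ideal.span_le, Set.insert_subset_iff, f1, r])
    have h3 : r a = 0 := (map_eq_zero_iff τ h1).1 ha
    have h4 : (Ideal.Quotient.mkₐ K (Ideal.span ({X 0, X 1} : Finset (A3 K)))).comp (i.comp r) =
        Ideal.Quotient.mkₐ K _ := by
      refine algHom_ext fun k => ?_
      fin_cases k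
      · exact (by simp [r] : _ = (0 : (A3 K) ⧸ _)).trans
          (Ideal.Quotient.eq_zero_iff_mem.2 (Ideal.subset_span (by simp))).symm
      · exact (by simp [r] : _ = (0 : (A3 K) ⧸ _)).trans
          (Ideal.Quotient.eq_zero_iff_mem.2 (Ideal.subset_span (by simp))).symm
      · simp [r, i]
    have h5 := AlgHom.congr_fun h4 a
    rw [AlgHom.comp_apply, AlgHom.comp_apply, h3, map_zero, map_zero] at h5
    exact Ideal.Quotient.eq_zero_iff_mem.1 h5.symm
  have hpr : ∀ (g : (A3 K) →ₐ[K] (A3 K)) (f : (A3 K) →+* K) (e : Localization U →+* K), (f = f1 ∨ f = f2) →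
      (∀ a, e (algebraMap (A3 K) _ a) = f a) → f.comp g.toRingHom = f →
      ((RingHom.ker g).map (algebraMap (A3 K) (Localization U))).IsPrime ∧
      (RingHom.ker g).map (algebraMap (A3 K) (Localization U)) ≤ RingHom.ker e ∧
      ∀ a, algebraMap (A3 K) _ a ∈ (RingHom.ker g).map (algebraMap (A3 K) (Localization U)) ↔ g a = 0 := by
    intro g f e hf he hg
    have h3 : ∀ a, g a = 0 → f a = 0 := fun a ha => by
      rw [← hg]
      simp [ha]
    have h4 : Disjoint (U : Set (A3 K)) (RingHom.ker g) := Set.disjoint_left.2 fun u hu hu' => by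
      rcases hf with rfl | rfl
      · exact ((hU u).1 hu).1 (h3 u hu')
      · exact ((hU u).1 hu).2 (h3 u hu')
    refine ⟨IsLocalization.isPrime_of_isPrime_disjoint U _ _ (RingHom.ker_isPrime g) h4,
      Ideal.map_le_iff_le_comap.2 fun a ha => (he a).trans (h3 a ha), fun a => ?_⟩
    exact SetLike.ext_iff.1 (IsLocalization.under_map_of_isPrime_disjoint U (Localization U)
      (RingHom.ker_isPrime g) h4) a
  obtain ⟨a1, a2, a3⟩ := hpr (aeval ![0, X 1, X 2]) f1 e1 (Or.inl rfl) he1
    (ringHom_ext (fun k => by simp) fun k => by fin_cases k <;> simp [f1, r])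
  obtain ⟨b1, -, b3⟩ := hpr (aeval ![X 0, 0, X 2]) f2 e2 (Or.inr rfl) he2
    (ringHom_ext (fun k => by simp) fun k => by fin_cases k <;> simp [f2])
  obtain ⟨c1, c2, c3⟩ := hpr (aeval ![X 0, 0, 0]) f2 e2 (Or.inr rfl) he2
    (ringHom_ext (fun k => by simp) fun k => by fin_cases k <;> simp [f2])
  have hb : ∀ (I : Ideal (Localization U)) (k : Fin 3), algebraMap (A3 K) _ (X k) ∈ I → ⊥ < I :=
    fun I k h => bot_lt_iff_ne_bot.2 fun h0 => by
      rw [h0, Ideal.mem_bot, map_eq_zero_iff _ hinj] at h
      exact X_ne_zero k h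
  refine ⟨U, e1, e2, _, _, _, hU0, fun u v => ?_, ?_, a1, b1, c1, hb _ 0 ((a3 _).2 (by simp)),
    lt_of_le_not_ge a2 fun h => ?_, fun h => ?_, hb _ 1 ((b3 _).2 (by simp)),
    lt_of_le_not_ge (Ideal.map_mono fun a ha => ?_) fun h => ?_, lt_of_le_not_ge c2 fun h => ?_⟩
  · obtain ⟨a, b, hb, rfl⟩ := h2 u
    have d1 : f1 ((1 - X 0) * i b + X 0) = τ b := by simp [f1, hri, r]
    have d2 : f2 ((1 - X 0) * i b + X 0) = 1 := by simp [f2]
    refine ⟨IsLocalization.mk' _ ((1 - X 0) * i a + X 0 * C v)
      (⟨(1 - X 0) * i b + X 0, (hU _).2 ⟨d1 ▸ hb, d2 ▸ one_ne_zero⟩⟩ : U), ?_, ?_⟩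
    · rw [IsLocalization.lift_mk'_spec, d1, mul_div_cancel₀ _ hb]
      simp [f1, hri, r]
    · rw [IsLocalization.lift_mk'_spec, d2]
      simp [f2]
  · rw [← IsLocalization.height_under U]
    have h3 : (RingHom.ker e1).under (A3 K) = RingHom.ker f1 := by
      ext a
      simp [he1]
    have := RingHom.ker_isPrime f1
    rw [h3]
    refine (Ideal.height_le_card_of_mem_minimalPrimes_span_finset (s := {X 0, X 1}) ?_).trans
      (by exact_mod_cast Finset.card_le_two)
    rw [← hk, Ideal.minimalPrimes_eq_subsingleton_self]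
    rfl
  · have := (a3 (X 1)).1 (h ((he1 _).trans (by simp [f1, r])))
    simp at this
  · have := (he2 _).symm.trans (h ((a3 (X 0)).2 (by simp)))
    simp [f2] at this
  · have h3 : (aeval ![X 0, 0, 0] : (A3 K) →ₐ[K] (A3 K)).comp (aeval ![X 0, 0, X 2]) =
        aeval ![X 0, 0, 0] := algHom_ext fun k => by fin_cases k <;> simp
    rw [RingHom.mem_ker] at ha ⊢
    rw [← h3, AlgHom.comp_apply, ha, map_zero]
  · have := (b3 (X 2)).1 (h ((c3 _).2 (by simp)))
    simp at this
  · have := (c3 (X 0 - 1)).1 (h ((he2 _).trans (by simp [f2])))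
    have h4 := congrArg (eval fun _ => (0 : K)) this
    simp at h4

lemma emb (R : Type) [CommRing R] [IsDomain R] (L : Type) [Field L] [IsAlgClosed L] [Algebra R L]
    (h : Function.Injective (algebraMap R L)) :
    Nonempty (AlgebraicClosure (FractionRing R) →ₐ[R] L) := by
  have : FaithfulSMul R L := (faithfulSMul_iff_algebraMap_injective R L).2 h
  have : FaithfulSMul R (AlgebraicClosure (FractionRing R)) := by
    rw [faithfulSMul_iff_algebraMap_injective,
      IsScalarTower.algebraMap_eq R (FractionRing R) (AlgebraicClosure (FractionRing R))]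
    exact (algebraMap (FractionRing R) _).injective.comp (IsFractionRing.injective _ _)
  have : Algebra.IsAlgebraic R (AlgebraicClosure (FractionRing R)) :=
    (IsFractionRing.comap_isAlgebraic_iff (K := FractionRing R)).2 inferInstance
  exact ⟨IsAlgClosed.lift⟩

/-- In every prime characteristic there is a Noetherian domain `R` that is not catenary (so not
excellent) and whose absolute integral closure has a nonzero `R`-linear map to `R`. -/
theorem result (p : ℕ) (hp : p.Prime) : ∃ (R : Type) (_ : CommRing R) (_ : IsDomain R),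
    IsNoetherianRing R ∧ CharP R p ∧ ¬ IsCatenary R ∧
      ClosureSolid R (AlgebraicClosure (FractionRing R)) := by
  obtain ⟨K, _, _, τ, h1, h2⟩ := field p hp
  obtain ⟨U, e1, e2, P, Q1, Q2, hU, hs, h3, _, _, _, hP0, hP1, hP2, hQ0, hQ1, hQ2⟩ :=
    ring K τ h1 h2
  set S := Localization U
  have : IsDomain S := IsLocalization.isDomain_localization hU
  have : CharP S p := charP_of_injective_algebraMap (IsLocalization.injective S hU) p
  set R := e1.eqLocus e2
  refine ⟨R, inferInstance, inferInstance, noeth e1 e2 hs, inferInstance, fun h => ?_, ?_⟩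
  · obtain ⟨a, b, c, d, m, h4, h5, h6, h7, h8⟩ :=
      chains e1 e2 hs h3 P Q1 Q2 hP0 hP1 hP2 hQ0 hQ1 hQ2
    obtain ⟨n, hn⟩ := h a m (h4.le.trans h5.le)
    have d1 := (hn ⟨2, ![a, b, m], fun i => by fin_cases i; exacts [h4.lt, h5.lt]⟩ rfl rfl).2
      fun i => by fin_cases i; exacts [h4, h5]
    have d2 := (hn ⟨3, ![a, c, d, m], fun i => by fin_cases i; exacts [h6, h7, h8]⟩ rfl rfl).1
    simp only at d1 d2
    omega
  · let L := AlgebraicClosure (FractionRing (A3 K))
    have hA : Function.Injective (algebraMap (A3 K) L) := by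
      rw [IsScalarTower.algebraMap_eq (A3 K) (FractionRing (A3 K)) L]
      exact (algebraMap (FractionRing (A3 K)) L).injective.comp (IsFractionRing.injective _ _)
    have : FaithfulSMul (A3 K) L := (faithfulSMul_iff_algebraMap_injective _ _).2 hA
    let σ : S →+* L := IsLocalization.lift (M := U) (g := algebraMap (A3 K) L) fun u =>
      ((map_ne_zero_iff _ hA).2 (nonZeroDivisors.ne_zero (hU u.2))).isUnit
    have hσ : Function.Injective σ := by
      refine (injective_iff_map_eq_zero σ).2 fun s hs => ?_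
      obtain ⟨⟨a, u⟩, rfl⟩ := IsLocalization.mk'_surjective U s
      rw [IsLocalization.lift_mk'_spec, mul_zero, map_eq_zero_iff _ hA] at hs
      simp [hs]
    let : Algebra S L := σ.toAlgebra
    have : IsScalarTower (A3 K) S L :=
      IsScalarTower.of_algebraMap_eq (R := A3 K) (S := S) (A := L) fun a => (IsLocalization.lift_eq _ a).symm
    obtain ⟨φ, hφ⟩ := split (σ := Fin 3) (K := K) p hp L
    obtain ⟨ψ, hψ⟩ := loc U S L φ hφ
    have : IsScalarTower R S L :=
      IsScalarTower.of_algebraMap_eq (R := R) (S := S) (A := L) fun a => rfl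
    obtain ⟨η⟩ := emb R L (hσ.comp Subtype.val_injective)
    obtain ⟨x, x1, x2⟩ := hs 0 1
    obtain ⟨y, y1, y2⟩ := hs 1 0
    let ζ : integralClosure R (AlgebraicClosure (FractionRing R)) → integralClosure S L :=
      fun z => ⟨η z, (z.2.map η).tower_top⟩
    refine ⟨⟨⟨fun z => ⟨x * y * ψ (ζ z), by simp [R, x1, y2]⟩, fun a b => Subtype.ext ?_⟩,
      fun r a => Subtype.ext ?_⟩, fun h => ?_⟩
    · have : ζ (a + b) = ζ a + ζ b := Subtype.ext (map_add η _ _)
      simp [this, mul_add]
    · have : ζ (r • a) = (r : S) • ζ a := Subtype.ext (map_smul η r _)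
      simp only [this, map_smul, smul_eq_mul, RingHom.id_apply, Subring.coe_mul]
      ring
    · have h4 : x * y * ψ (ζ 1) = 0 := congrArg Subtype.val (LinearMap.congr_fun h 1)
      rw [show ζ 1 = 1 from Subtype.ext (map_one η), hψ, mul_one, mul_eq_zero] at h4
      rcases h4 with rfl | rfl
      · simp at x2
      · simp at y1

end Pool.Agent.Results.MP_afeaf0_al.Solid
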